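import Mathlib

/-!
# MP_8ac0e4_co: strong `∨₂`-free sets in the three-dimensional grid

The ratio `La*([k]^3, ∨₂) / w_{k,3}` does not converge to `1 + 1/3`.
-/

namespace Pool.Agent.Results.MP_8ac0e4_co.DimThree

open Filter Topology

/-- The grid `[k]^d` with the coordinatewise order (`[k]` is represented by `Fin k`). -/
abbrev Grid (k d : ℕ) : Type := Fin d → Fin k

/-- `w_{k,d}`: the largest size of an antichain in `[k]^d`. -/
noncomputable def width (k d : ℕ) : ℕ :=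
  sSup {n | ∃ A : Finset (Grid k d), IsAntichain (· ≤ ·) (A : Set (Grid k d)) ∧ A.card = n}

/-- `F` contains no strong (induced) copy of the poset `∨₂`: there are no `a, b, c` in `F` with
`a < b`, `a < c` and `b`, `c` incomparable. -/
def StrongVeeFree {k d : ℕ} (F : Finset (Grid k d)) : Prop :=
  ¬ ∃ a ∈ F, ∃ b ∈ F, ∃ c ∈ F, a < b ∧ a < c ∧ ¬ b ≤ c ∧ ¬ c ≤ b

/-- `La*([k]^d, ∨₂)`: the largest size of a strong `∨₂`-free set. -/
noncomputable def La (k d : ℕ) : ℕ :=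
  sSup {n | ∃ F : Finset (Grid k d), StrongVeeFree F ∧ F.card = n}

lemma le_La {k d : ℕ} (F : Finset (Grid k d)) (hF : StrongVeeFree F) : F.card ≤ La k d := by
  apply le_csSup
  · refine ⟨Fintype.card (Grid k d), ?_⟩
    rintro n ⟨F, _, rfl⟩
    exact Finset.card_le_univ F
  · exact ⟨F, hF, rfl⟩

lemma le_iff3 {k : ℕ} (p q : Grid k 3) :
    p ≤ q ↔ (p 0 : ℕ) ≤ q 0 ∧ (p 1 : ℕ) ≤ q 1 ∧ (p 2 : ℕ) ≤ q 2 := by
  constructor
  · intro h; exact ⟨h 0, h 1, h 2⟩
  · rintro ⟨h0, h1, h2⟩ i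
    fin_cases i
    · exact h0
    · exact h1
    · exact h2

lemma ext3 {k : ℕ} (p q : Grid k 3) (h0 : (p 0 : ℕ) = q 0) (h1 : (p 1 : ℕ) = q 1)
    (h2 : (p 2 : ℕ) = q 2) : p = q := by
  funext i
  fin_cases i
  · exact Fin.ext h0
  · exact Fin.ext h1
  · exact Fin.ext h2

/-! ### The upper bound on antichains -/

lemma antichain_bound (n : ℕ) (A : Finset (Grid (4 * n) 3))
    (hA : IsAntichain (· ≤ ·) (A : Set (Grid (4 * n) 3))) : A.card ≤ 12 * n ^ 2 := by
  classical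
  have hanti : ∀ p ∈ A, ∀ q ∈ A, (p 0 : ℕ) ≤ q 0 → (p 1 : ℕ) ≤ q 1 → (p 2 : ℕ) ≤ q 2 → p = q := by
    intro p hp q hq h0 h1 h2
    by_contra hne
    exact hA hp hq hne ((le_iff3 p q).2 ⟨h0, h1, h2⟩)
  let ι : Grid (4 * n) 3 → ℕ := fun p => min (p 0 : ℕ) (4 * n - 1 - (p 1 : ℕ))
  have hmaps : ∀ p ∈ A, ι p ∈ Finset.range (4 * n) := by
    intro p _
    have := (p 0).2
    simp only [ι, Finset.mem_range]
    omega
  rw [Finset.card_eq_sum_card_fiberwise (f := ι) (t := Finset.range (4 * n)) hmaps]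
  have hb1 : ∀ i, (A.filter fun p => ι p = i).card ≤ 4 * n := by
    intro i
    have h : (A.filter fun p => ι p = i).card ≤ (Finset.range (4 * n)).card := by
      apply Finset.card_le_card_of_injOn (fun p => (p 2 : ℕ))
      · intro p _
        simp
      · intro p hp q hq hpq
        rw [Finset.mem_coe, Finset.mem_filter] at hp hq
        have hp2 : min (p 0 : ℕ) (4 * n - 1 - (p 1 : ℕ)) = i := hp.2
        have hq2 : min (q 0 : ℕ) (4 * n - 1 - (q 1 : ℕ)) = i := hq.2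
        have e : (p 2 : ℕ) = q 2 := hpq
        have := (p 0).2
        have := (q 0).2
        have := (p 1).2
        have := (q 1).2
        by_cases hc : (p 0 : ℕ) ≤ q 0 ∧ (p 1 : ℕ) ≤ q 1
        · exact hanti p hp.1 q hq.1 hc.1 hc.2 (by omega)
        · exact (hanti q hq.1 p hp.1 (by omega) (by omega) (by omega)).symm
    simpa using h
  have hb2 : ∀ i, i < 4 * n → (A.filter fun p => ι p = i).card ≤ 2 * (4 * n - i) - 1 := by
    intro i hi
    have h : (A.filter fun p => ι p = i).card ≤ (Finset.Icc i (2 * (4 * n) - 2 - i)).card := by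
      apply Finset.card_le_card_of_injOn (fun p => (p 0 : ℕ) + (p 1 : ℕ))
      · intro p hp
        rw [Finset.mem_coe, Finset.mem_filter] at hp
        have hp2 : min (p 0 : ℕ) (4 * n - 1 - (p 1 : ℕ)) = i := hp.2
        have := (p 0).2
        have := (p 1).2
        simp only [Finset.coe_Icc, Set.mem_Icc]
        omega
      · intro p hp q hq hpq
        rw [Finset.mem_coe, Finset.mem_filter] at hp hq
        have hp2 : min (p 0 : ℕ) (4 * n - 1 - (p 1 : ℕ)) = i := hp.2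
        have hq2 : min (q 0 : ℕ) (4 * n - 1 - (q 1 : ℕ)) = i := hq.2
        have e : (p 0 : ℕ) + p 1 = q 0 + q 1 := hpq
        have := (p 0).2
        have := (q 0).2
        have := (p 1).2
        have := (q 1).2
        by_cases hc : (p 2 : ℕ) ≤ q 2
        · exact hanti p hp.1 q hq.1 (by omega) (by omega) hc
        · exact (hanti q hq.1 p hp.1 (by omega) (by omega) (by omega)).symm
    rw [Nat.card_Icc] at h
    omega
  have hsplit : Finset.range (4 * n) = Finset.range (2 * n + 2 * n) := by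
    congr 1
    ring
  rw [hsplit, Finset.sum_range_add]
  have h1 : ∑ i ∈ Finset.range (2 * n), (A.filter fun p => ι p = i).card ≤ 2 * n * (4 * n) := by
    refine (Finset.sum_le_card_nsmul _ _ _ fun i _ => hb1 i).trans ?_
    rw [Finset.card_range, smul_eq_mul]
  have h2 : ∀ m, ∑ j ∈ Finset.range m, (2 * j + 1) = m * m := by
    intro m
    induction m with
    | zero => simp
    | succ m ih => rw [Finset.sum_range_succ, ih]; ring
  have h3 : ∑ j ∈ Finset.range (2 * n), (A.filter fun p => ι p = 2 * n + j).card ≤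
      2 * n * (2 * n) := by
    rw [← h2 (2 * n), ← Finset.sum_range_reflect (fun j => 2 * j + 1)]
    apply Finset.sum_le_sum
    intro j hj
    rw [Finset.mem_range] at hj
    have := hb2 (2 * n + j) (by omega)
    omega
  calc _ ≤ 2 * n * (4 * n) + 2 * n * (2 * n) := Nat.add_le_add h1 h3
    _ = 12 * n ^ 2 := by ring

lemma width_le (n : ℕ) : width (4 * n) 3 ≤ 12 * n ^ 2 := by
  apply csSup_le
  · exact ⟨0, ∅, by simp, by simp⟩
  · rintro _ ⟨A, hA, rfl⟩
    exact antichain_bound n A hA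

lemma width_pos (n : ℕ) (hn : 1 ≤ n) : 1 ≤ width (4 * n) 3 := by
  apply le_csSup
  · refine ⟨Fintype.card (Grid (4 * n) 3), ?_⟩
    rintro m ⟨F, _, rfl⟩
    exact Finset.card_le_univ F
  · refine ⟨{fun _ => ⟨0, by omega⟩}, ?_, by simp⟩
    simp

/-! ### The construction -/

/-- The condition defining the large strong `∨₂`-free set in natural coordinates. -/
def Cond (n x y z : ℕ) : Prop :=
  x + y + z / 2 = 5 * n - 1 ∨ (x + y + z / 2 = 5 * n ∧ z % 2 = 1 ∧ (x + 2 * y) % 3 = 0)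

instance (n x y z : ℕ) : Decidable (Cond n x y z) := by unfold Cond; infer_instance

/-- The set itself. -/
def theF (n : ℕ) : Finset (Grid (4 * n) 3) :=
  Finset.univ.filter fun p => Cond n (p 0) (p 1) (p 2)

lemma theF_free (n : ℕ) (hn : 1 ≤ n) : StrongVeeFree (theF n) := by
  rintro ⟨a, ha, b, hb, c, hc, hab, hac, hbc, hcb⟩
  rw [theF, Finset.mem_filter] at ha hb hc
  have ha := ha.2
  have hb := hb.2
  have hc := hc.2
  unfold Cond at ha hb hc
  have hab' := (le_iff3 a b).1 hab.le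
  have hac' := (le_iff3 a c).1 hac.le
  have hab'' : ¬ ((b 0 : ℕ) ≤ a 0 ∧ (b 1 : ℕ) ≤ a 1 ∧ (b 2 : ℕ) ≤ a 2) := by
    rw [← le_iff3]; exact not_le_of_gt hab
  have hac'' : ¬ ((c 0 : ℕ) ≤ a 0 ∧ (c 1 : ℕ) ≤ a 1 ∧ (c 2 : ℕ) ≤ a 2) := by
    rw [← le_iff3]; exact not_le_of_gt hac
  rw [le_iff3] at hbc hcb
  obtain ⟨p0, p1, p2⟩ := hab'
  obtain ⟨q0, q1, q2⟩ := hac'
  rcases ha with ha | ⟨ha, ha2, ha3⟩
  · have hstep : ∀ d : Grid (4 * n) 3, (a 0 : ℕ) ≤ d 0 → (a 1 : ℕ) ≤ d 1 → (a 2 : ℕ) ≤ d 2 →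
        (d 0 : ℕ) + (d 1 : ℕ) + (d 2 : ℕ) / 2 = 5 * n →
        ((d 0 : ℕ) = a 0 + 1 ∧ (d 1 : ℕ) = a 1 ∧ (d 2 : ℕ) / 2 = (a 2 : ℕ) / 2) ∨
        ((d 0 : ℕ) = a 0 ∧ (d 1 : ℕ) = a 1 + 1 ∧ (d 2 : ℕ) / 2 = (a 2 : ℕ) / 2) ∨
        ((d 0 : ℕ) = a 0 ∧ (d 1 : ℕ) = a 1 ∧ (d 2 : ℕ) / 2 = (a 2 : ℕ) / 2 + 1) := by
      intro d h0 h1 h2 h3
      omega
    rcases hb with hb | ⟨hb, hb2, hb3⟩
    · rcases hc with hc | ⟨hc, hc2, hc3⟩
      · omega
      · omega
    · rcases hc with hc | ⟨hc, hc2, hc3⟩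
      · omega
      · rcases hstep b p0 p1 p2 hb with ⟨r0, r1, r2⟩ | ⟨r0, r1, r2⟩ | ⟨r0, r1, r2⟩ <;>
        rcases hstep c q0 q1 q2 hc with ⟨s0, s1, s2⟩ | ⟨s0, s1, s2⟩ | ⟨s0, s1, s2⟩ <;>
        omega
  · rcases hb with hb | ⟨hb, hb2, hb3⟩
    · omega
    · omega

/-- Points from natural coordinates. -/
def pt (k : ℕ) (hk : 0 < k) (x y z : ℕ) : Grid k 3 :=
  ![⟨x % k, Nat.mod_lt _ hk⟩, ⟨y % k, Nat.mod_lt _ hk⟩, ⟨z % k, Nat.mod_lt _ hk⟩]

lemma pt0 (k : ℕ) (hk : 0 < k) (x y z : ℕ) : ((pt k hk x y z 0 : Fin k) : ℕ) = x % k := rfl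
lemma pt1 (k : ℕ) (hk : 0 < k) (x y z : ℕ) : ((pt k hk x y z 1 : Fin k) : ℕ) = y % k := rfl
lemma pt2 (k : ℕ) (hk : 0 < k) (x y z : ℕ) : ((pt k hk x y z 2 : Fin k) : ℕ) = z % k := rfl

lemma sum_halves (f : ℕ → ℕ) (m : ℕ) :
    ∑ z ∈ Finset.range (2 * m), f (z / 2) = 2 * ∑ w ∈ Finset.range m, f w := by
  induction m with
  | zero => simp
  | succ m ih =>
    rw [show 2 * (m + 1) = 2 * m + 1 + 1 by ring, Finset.sum_range_succ, Finset.sum_range_succ,
      Finset.sum_range_succ, ih]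
    have e1 : 2 * m / 2 = m := by omega
    have e2 : (2 * m + 1) / 2 = m := by omega
    rw [e1, e2]
    ring

lemma card1 (n : ℕ) (hn : 1 ≤ n) : 14 * n ^ 2 ≤
    (Finset.univ.filter fun p : Grid (4 * n) 3 =>
      (p 0 : ℕ) + (p 1 : ℕ) + (p 2 : ℕ) / 2 = 5 * n - 1).card := by
  classical
  have hk : 0 < 4 * n := by omega
  let T : Finset ((_ : ℕ) × ℕ) := (Finset.range (4 * n)).sigma
    (fun z => Finset.Icc (n - z / 2) (min (4 * n - 1) (5 * n - 1 - z / 2)))
  have hT : T.card = 14 * n ^ 2 := by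
    rw [Finset.card_sigma]
    simp only [Nat.card_Icc]
    rw [show 4 * n = 2 * (2 * n) by ring,
      sum_halves (fun w => min (2 * (2 * n) - 1) (5 * n - 1 - w) + 1 - (n - w)) (2 * n),
      show 2 * n = n + n by ring, Finset.sum_range_add, ← Finset.sum_add_distrib]
    have h : ∀ j ∈ Finset.range n, (min (2 * (n + n) - 1) (5 * n - 1 - j) + 1 - (n - j)) +
        (min (2 * (n + n) - 1) (5 * n - 1 - (n + j)) + 1 - (n - (n + j))) = 7 * n := by
      intro j hj
      rw [Finset.mem_range] at hj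
      omega
    rw [Finset.sum_congr rfl h, Finset.sum_const, Finset.card_range, smul_eq_mul]
    ring
  rw [← hT]
  apply Finset.card_le_card_of_injOn
    (fun s => pt (4 * n) hk (5 * n - 1 - s.1 / 2 - s.2) s.2 s.1)
  · rintro ⟨z, y⟩ hs
    rw [Finset.mem_coe, Finset.mem_sigma, Finset.mem_range, Finset.mem_Icc] at hs
    simp only at hs
    rw [Finset.mem_coe, Finset.mem_filter]
    refine ⟨Finset.mem_univ _, ?_⟩
    simp only
    rw [pt0, pt1, pt2, Nat.mod_eq_of_lt (by omega), Nat.mod_eq_of_lt (by omega),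
      Nat.mod_eq_of_lt (by omega)]
    omega
  · rintro ⟨z, y⟩ hs ⟨z', y'⟩ hs' heq
    rw [Finset.mem_coe, Finset.mem_sigma, Finset.mem_range, Finset.mem_Icc] at hs hs'
    simp only at hs hs' heq
    have h1 := congrArg (fun p : Grid (4 * n) 3 => (p 1 : ℕ)) heq
    have h2 := congrArg (fun p : Grid (4 * n) 3 => (p 2 : ℕ)) heq
    simp only [pt1, pt2] at h1 h2
    rw [Nat.mod_eq_of_lt (by omega), Nat.mod_eq_of_lt (by omega)] at h1 h2
    subst h2
    subst h1
    rfl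

/-- The number of admissible values of the second coordinate for given `w`. -/
def len (n w : ℕ) : ℕ := min (4 * n - 1) (5 * n - w) + 1 - (n + 1 - w)

/-- The smallest admissible value with the right residue. -/
def low (n w : ℕ) : ℕ := (n + 1 - w) + (3 - (5 * n - w + (n + 1 - w)) % 3) % 3

lemma card2 (n : ℕ) (hn : 1 ≤ n) : 7 * n ^ 2 ≤ 6 * n + 3 *
    (Finset.univ.filter fun p : Grid (4 * n) 3 =>
      (p 0 : ℕ) + (p 1 : ℕ) + (p 2 : ℕ) / 2 = 5 * n ∧ (p 2 : ℕ) % 2 = 1 ∧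
        ((p 0 : ℕ) + 2 * (p 1 : ℕ)) % 3 = 0).card := by
  classical
  have hk : 0 < 4 * n := by omega
  let T : Finset ((_ : ℕ) × ℕ) := (Finset.range (2 * n)).sigma
    (fun w => Finset.range (len n w / 3))
  have hT : 7 * n ^ 2 ≤ 6 * n + 3 * T.card := by
    rw [Finset.card_sigma]
    simp only [Finset.card_range]
    rw [show 2 * n = n + n by ring, Finset.sum_range_add, ← Finset.sum_add_distrib]
    have h : ∀ j ∈ Finset.range n, 7 * n ≤ 6 + 3 * (len n j / 3 + len n (n + j) / 3) := by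
      intro j hj
      rw [Finset.mem_range] at hj
      unfold len
      omega
    have h2 := Finset.sum_le_sum h
    rw [Finset.sum_const, Finset.card_range, smul_eq_mul, Finset.sum_add_distrib,
      Finset.sum_const, Finset.card_range, smul_eq_mul, ← Finset.mul_sum] at h2
    calc 7 * n ^ 2 = n * (7 * n) := by ring
      _ ≤ _ := h2
      _ = _ := by ring
  have hle : T.card ≤ (Finset.univ.filter fun p : Grid (4 * n) 3 =>
      (p 0 : ℕ) + (p 1 : ℕ) + (p 2 : ℕ) / 2 = 5 * n ∧ (p 2 : ℕ) % 2 = 1 ∧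
        ((p 0 : ℕ) + 2 * (p 1 : ℕ)) % 3 = 0).card := by
    apply Finset.card_le_card_of_injOn
      (fun s => pt (4 * n) hk (5 * n - s.1 - (low n s.1 + 3 * s.2)) (low n s.1 + 3 * s.2)
        (2 * s.1 + 1))
    · rintro ⟨w, j⟩ hs
      rw [Finset.mem_coe, Finset.mem_sigma, Finset.mem_range, Finset.mem_range] at hs
      simp only at hs
      unfold len at hs
      rw [Finset.mem_coe, Finset.mem_filter]
      refine ⟨Finset.mem_univ _, ?_⟩
      simp only
      obtain ⟨l, hl⟩ : ∃ l, low n w = l := ⟨_, rfl⟩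
      have hl' := hl
      unfold low at hl'
      have b1 : l + 3 * j ≤ 4 * n - 1 := by omega
      have b2 : l + 3 * j ≤ 5 * n - w := by omega
      have b3 : 5 * n - w - (l + 3 * j) < 4 * n := by omega
      have b4 : (5 * n - w + (l + 3 * j)) % 3 = 0 := by omega
      rw [pt0, pt1, pt2, hl, Nat.mod_eq_of_lt b3, Nat.mod_eq_of_lt (by omega),
        Nat.mod_eq_of_lt (by omega)]
      omega
    · rintro ⟨w, j⟩ hs ⟨w', j'⟩ hs' heq
      rw [Finset.mem_coe, Finset.mem_sigma, Finset.mem_range, Finset.mem_range] at hs hs'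
      simp only at hs hs' heq
      have h1 := congrArg (fun p : Grid (4 * n) 3 => (p 1 : ℕ)) heq
      have h2 := congrArg (fun p : Grid (4 * n) 3 => (p 2 : ℕ)) heq
      simp only [pt1, pt2] at h1 h2
      rw [Nat.mod_eq_of_lt (by omega), Nat.mod_eq_of_lt (by omega)] at h2
      have hw : w = w' := by omega
      subst hw
      obtain ⟨l, hl⟩ : ∃ l, low n w = l := ⟨_, rfl⟩
      have hl' := hl
      unfold low at hl'
      unfold len at hs hs'
      rw [hl, Nat.mod_eq_of_lt (by omega), Nat.mod_eq_of_lt (by omega)] at h1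
      have hj : j = j' := by omega
      subst hj
      rfl
  omega

lemma card_theF (n : ℕ) (hn : 1 ≤ n) : 49 * n ^ 2 ≤ 6 * n + 3 * (theF n).card := by
  classical
  have h1 := card1 n hn
  have h2 := card2 n hn
  have hdisj : Disjoint (Finset.univ.filter fun p : Grid (4 * n) 3 =>
      (p 0 : ℕ) + (p 1 : ℕ) + (p 2 : ℕ) / 2 = 5 * n - 1)
      (Finset.univ.filter fun p : Grid (4 * n) 3 =>
      (p 0 : ℕ) + (p 1 : ℕ) + (p 2 : ℕ) / 2 = 5 * n ∧ (p 2 : ℕ) % 2 = 1 ∧
        ((p 0 : ℕ) + 2 * (p 1 : ℕ)) % 3 = 0) := by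
    rw [Finset.disjoint_left]
    intro p hp hq
    rw [Finset.mem_filter] at hp hq
    have := hp.2
    have := hq.2
    omega
  have h3 : (theF n).card = (Finset.univ.filter fun p : Grid (4 * n) 3 =>
      (p 0 : ℕ) + (p 1 : ℕ) + (p 2 : ℕ) / 2 = 5 * n - 1).card +
      (Finset.univ.filter fun p : Grid (4 * n) 3 =>
      (p 0 : ℕ) + (p 1 : ℕ) + (p 2 : ℕ) / 2 = 5 * n ∧ (p 2 : ℕ) % 2 = 1 ∧
        ((p 0 : ℕ) + 2 * (p 1 : ℕ)) % 3 = 0).card := by
    rw [← Finset.card_union_of_disjoint hdisj]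
    congr 1
    ext p
    rw [theF, Finset.mem_filter, Finset.mem_union, Finset.mem_filter, Finset.mem_filter]
    simp only [Cond, Finset.mem_univ, true_and]
  omega

/-- For all large `n`, the largest strong `∨₂`-free subset of `[4n]^3` is larger than the width
by a factor of at least `4/3 + 1/72`; in particular the ratio does not tend to `1 + 1/3`. -/
theorem result :
    (∀ n : ℕ, 12 ≤ n → ((4 : ℝ) / 3 + 1 / 72) * (width (4 * n) 3 : ℝ) ≤ (La (4 * n) 3 : ℝ)) ∧
    ¬ Tendsto (fun k : ℕ => (La k 3 : ℝ) / (width k 3 : ℝ)) atTop (𝓝 (1 + 1 / ((3 : ℕ) : ℝ))) := by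
  have key : ∀ n : ℕ, 12 ≤ n →
      ((4 : ℝ) / 3 + 1 / 72) * (width (4 * n) 3 : ℝ) ≤ (La (4 * n) 3 : ℝ) := by
    intro n hn
    have h1 := card_theF n (by omega)
    have h2 := le_La (theF n) (theF_free n (by omega))
    have h3 := width_le n
    have h1' : (49 : ℝ) * n ^ 2 ≤ 6 * n + 3 * ((theF n).card : ℝ) := by exact_mod_cast h1
    have h2' : ((theF n).card : ℝ) ≤ (La (4 * n) 3 : ℝ) := by exact_mod_cast h2
    have h3' : (width (4 * n) 3 : ℝ) ≤ 12 * (n : ℝ) ^ 2 := by exact_mod_cast h3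
    have hn' : (12 : ℝ) ≤ n := by exact_mod_cast hn
    nlinarith
  refine ⟨key, ?_⟩
  intro hlim
  have hsub : Tendsto (fun n : ℕ => 4 * n) atTop atTop :=
    tendsto_id.const_mul_atTop' (by norm_num : 0 < 4)
  have h2 := hlim.comp hsub
  have hlt : (1 : ℝ) + 1 / ((3 : ℕ) : ℝ) < 4 / 3 + 1 / 72 := by norm_num
  have h3 := (h2.eventually (gt_mem_nhds hlt)).and (eventually_ge_atTop 12)
  obtain ⟨n, hn1, hn2⟩ := h3.exists
  have hw : (0 : ℝ) < (width (4 * n) 3 : ℝ) := by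
    have := width_pos n (by omega)
    exact_mod_cast this
  have h4 := key n hn2
  simp only [Function.comp] at hn1
  rw [div_lt_iff₀ hw] at hn1
  linarith

end Pool.Agent.Results.MP_8ac0e4_co.DimThree
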